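import Pool.Agent.U115.WN.Stm

set_option autoImplicit false
set_option linter.unusedVariables false

/-!
Project WN (helper115), package QPR (helper591): many primitive vectors in a cone with many integral vectors.
-/

open Finset
open Pool.Agent.U115.WN

namespace Pool.Agent.U591.WN.QPR

variable {ι : Type} [Fintype ι]

/-- the elements of `W` in the cube -/
def SS (W : Set (ι → ℤ)) (q : ℕ) : Set (ι → ℤ) := {c : ι → ℤ | c ∈ W ∧ ∀ α, |c α| ≤ q}

/-- the primitive elements of `W` in the cube -/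
def PP (W : Set (ι → ℤ)) (q : ℕ) : Set (ι → ℤ) :=
  {c : ι → ℤ | c ∈ W ∧ (∀ α, |c α| ≤ q) ∧ ∀ d : ℤ, (∀ α, d ∣ c α) → IsUnit d}

lemma box (x : ℕ) [DecidableEq ι] : {c : ι → ℤ | ∀ α, |c α| ≤ x} =
    ↑(Fintype.piFinset fun _ : ι => Finset.Icc (-(x : ℤ)) x) := by
  ext c
  simp only [Set.mem_ofPred_eq, Finset.mem_coe, Fintype.mem_piFinset, Finset.mem_Icc, abs_le]

lemma box_fin (x : ℕ) : {c : ι → ℤ | ∀ α, |c α| ≤ x}.Finite := by
  classical
  rw [box]
  exact Finset.finite_toSet _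

lemma SS_fin (W : Set (ι → ℤ)) (q : ℕ) : (SS W q).Finite := (box_fin q).subset fun _ h => h.2

lemma PP_fin (W : Set (ι → ℤ)) (q : ℕ) : (PP W q).Finite := (box_fin q).subset fun _ h => h.2.1

lemma PP_card (W : Set (ι → ℤ)) (x : ℕ) (hx : 1 ≤ x) :
    ((PP W x).ncard : ℝ) ≤ (3 * (x : ℝ)) ^ Fintype.card ι := by
  classical
  have h1 : (PP W x).ncard ≤ {c : ι → ℤ | ∀ α, |c α| ≤ x}.ncard :=
    Set.ncard_le_ncard (fun _ h => h.2.1) (box_fin x)
  have h2 : {c : ι → ℤ | ∀ α, |c α| ≤ x}.ncard = (2 * x + 1) ^ Fintype.card ι := by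
    rw [box, Set.ncard_coe_finset, Fintype.card_piFinset, Finset.prod_const, Int.card_Icc,
      Finset.card_univ]
    congr 1
    omega
  rw [h2] at h1
  have h3 : ((PP W x).ncard : ℝ) ≤ (2 * (x : ℝ) + 1) ^ Fintype.card ι := by exact_mod_cast h1
  refine h3.trans ?_
  have hx' : (1 : ℝ) ≤ x := by exact_mod_cast hx
  exact pow_le_pow_left₀ (by positivity) (by linarith) _

lemma PP_mono (W : Set (ι → ℤ)) {x y : ℕ} (h : x ≤ y) : (PP W x).ncard ≤ (PP W y).ncard := by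
  refine Set.ncard_le_ncard (fun c hc => ⟨hc.1, fun α => (hc.2.1 α).trans ?_, hc.2.2⟩) (PP_fin W y)
  exact_mod_cast h

lemma cover (W : Set (ι → ℤ)) (hι : Nonempty ι)
    (h1 : ∀ (c : ι → ℤ) (d : ℤ), d ≠ 0 → (d • c ∈ W ↔ c ∈ W)) (h2 : (0 : ι → ℤ) ∉ W) (q : ℕ)
    (c : ι → ℤ) (hc : c ∈ SS W q) :
    ∃ d ∈ Finset.Icc 1 q, ∃ g ∈ PP W (q / d), (d : ℤ) • g = c := by
  classical
  obtain ⟨g, hg, hg1⟩ := Finset.extract_gcd (s := (Finset.univ : Finset ι)) c
    Finset.univ_nonempty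
  set D : ℤ := Finset.univ.gcd c with hD
  have hD0 : 0 ≤ D := Int.nonneg_of_normalize_eq_self Finset.normalize_gcd
  have hDne : D ≠ 0 := by
    intro h
    apply h2
    have : c = 0 := by
      funext b
      rw [hg b (Finset.mem_univ b), h, zero_mul]
      rfl
    rw [← this]
    exact hc.1
  obtain ⟨d, hd⟩ := Int.eq_ofNat_of_zero_le hD0
  have hd1 : 1 ≤ d := by
    rcases Nat.eq_zero_or_pos d with h | h
    · rw [h] at hd
      exact absurd hd hDne
    · exact h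
  have e1 : (d : ℤ) • g = c := by
    funext b
    rw [hg b (Finset.mem_univ b), hd]
    rfl
  have hgW : g ∈ W := by
    have h3 := h1 g (d : ℤ) (by exact_mod_cast (by omega : d ≠ 0))
    rw [e1] at h3
    exact h3.1 hc.1
  have hb : ∀ b, |g b| * d ≤ q := by
    intro b
    have h3 := hc.2 b
    rw [hg b (Finset.mem_univ b), hd, abs_mul, Nat.abs_cast] at h3
    linarith [mul_comm (|g b|) (d : ℤ)]
  have hb' : ∀ b, |g b| ≤ ((q / d : ℕ) : ℤ) := by
    intro b
    have h3 := hb b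
    rw [Int.abs_eq_natAbs] at h3 ⊢
    have h4 : (g b).natAbs * d ≤ q := by exact_mod_cast h3
    exact_mod_cast (Nat.le_div_iff_mul_le (by omega : 0 < d)).2 h4
  have hprim : ∀ e : ℤ, (∀ α, e ∣ g α) → IsUnit e := by
    intro e he
    have h3 : e ∣ Finset.univ.gcd g := Finset.dvd_gcd fun b _ => he b
    rw [hg1] at h3
    exact isUnit_of_dvd_one h3
  have hdq : d ≤ q := by
    by_contra h
    have h3 : ∀ b, g b = 0 := by
      intro b
      have h4 := hb' b
      rw [Nat.div_eq_of_lt (by omega)] at h4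
      have h5 : |g b| ≤ 0 := by exact_mod_cast h4
      exact abs_nonpos_iff.1 h5
    apply h2
    have : g = 0 := funext h3
    rw [← this]
    exact hgW
  exact ⟨d, Finset.mem_Icc.2 ⟨hd1, hdq⟩, g, ⟨hgW, hb', hprim⟩, e1⟩

lemma card_le (W : Set (ι → ℤ)) (hι : Nonempty ι)
    (h1 : ∀ (c : ι → ℤ) (d : ℤ), d ≠ 0 → (d • c ∈ W ↔ c ∈ W)) (h2 : (0 : ι → ℤ) ∉ W) (q : ℕ) :
    (SS W q).ncard ≤ ∑ d ∈ Finset.Icc 1 q, (PP W (q / d)).ncard := by
  classical
  have e1 : (SS W q).ncard = (SS_fin W q).toFinset.card := Set.ncard_eq_toFinset_card _ _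
  have e2 : ∀ x, (PP W x).ncard = (PP_fin W x).toFinset.card := fun x =>
    Set.ncard_eq_toFinset_card _ _
  have hsub : (SS_fin W q).toFinset ⊆ (Finset.Icc 1 q).biUnion fun d =>
      ((PP_fin W (q / d)).toFinset).image fun g => (d : ℤ) • g := by
    intro c hc
    rw [Set.Finite.mem_toFinset] at hc
    obtain ⟨d, hd, g, hg, e⟩ := cover W hι h1 h2 q c hc
    rw [Finset.mem_biUnion]
    exact ⟨d, hd, Finset.mem_image.2 ⟨g, (Set.Finite.mem_toFinset _).2 hg, e⟩⟩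
  rw [e1]
  refine (Finset.card_le_card hsub).trans (Finset.card_biUnion_le.trans ?_)
  refine Finset.sum_le_sum fun d _ => ?_
  rw [e2]
  exact Finset.card_image_le

lemma tele (D : ℕ) (hD : 1 ≤ D) (m : ℕ) (hm : D ≤ m) :
    ∑ d ∈ Finset.Ioc D m, (1 / ((d : ℝ) - 1) - 1 / d) = 1 / D - 1 / m := by
  induction m, hm using Nat.le_induction with
  | base => simp
  | succ m hm ih =>
    rw [Finset.sum_Ioc_succ_top (by omega), ih]
    push_cast
    ring

theorem t (W : Set (ι → ℤ)) (c₀ : ℝ) (hr : 2 ≤ Fintype.card ι)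
    (h1 : ∀ (c : ι → ℤ) (d : ℤ), d ≠ 0 → (d • c ∈ W ↔ c ∈ W)) (h2 : (0 : ι → ℤ) ∉ W) (h0 : 0 < c₀)
    (h3 : ∀ q : ℕ, 1 ≤ q → c₀ * (q : ℝ) ^ Fintype.card ι ≤ ((SS W q).ncard : ℝ)) :
    ∃ c₁ : ℝ, 0 < c₁ ∧ ∀ q : ℕ, 1 ≤ q → (PP W q).Finite ∧
      c₁ * (q : ℝ) ^ Fintype.card ι ≤ ((PP W q).ncard : ℝ) := by
  classical
  have hι : Nonempty ι := Fintype.card_pos_iff.1 (by omega)
  set r := Fintype.card ι with hrr
  obtain ⟨D₀, hD₀⟩ := exists_nat_ge (2 * 3 ^ r / c₀)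
  set D : ℕ := D₀ + 1 with hDD
  have hD1 : 1 ≤ D := by omega
  have hDr : (0 : ℝ) < D := by exact_mod_cast hD1
  have hD : 2 * 3 ^ r / c₀ ≤ D := by
    rw [hDD]; push_cast; linarith
  refine ⟨c₀ / (2 * D), by positivity, fun q hq => ⟨PP_fin W q, ?_⟩⟩
  have hq' : (1 : ℝ) ≤ q := by exact_mod_cast hq
  have e1 : ((SS W q).ncard : ℝ) ≤ ∑ d ∈ Finset.Icc 1 q, ((PP W (q / d)).ncard : ℝ) := by
    exact_mod_cast card_le W hι h1 h2 q
  have e2 : ∀ d ∈ Finset.Icc 1 q, ((PP W (q / d)).ncard : ℝ) ≤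
      (if d ≤ D then ((PP W q).ncard : ℝ) else 0) +
        (if D < d then (3 * (q : ℝ)) ^ r * (1 / ((d : ℝ) - 1) - 1 / d) else 0) := by
    intro d hd
    rw [Finset.mem_Icc] at hd
    by_cases h : d ≤ D
    · rw [if_pos h, if_neg (by omega), add_zero]
      exact_mod_cast PP_mono W (Nat.div_le_self q d)
    · rw [if_neg h, if_pos (by omega), zero_add]
      have hd2 : (2 : ℝ) ≤ d := by exact_mod_cast (by omega : 2 ≤ d)
      have hx : 1 ≤ q / d := (Nat.one_le_div_iff (by omega)).2 hd.2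
      refine (PP_card W (q / d) hx).trans ?_
      have h4 : ((q / d : ℕ) : ℝ) ≤ (q : ℝ) / d := Nat.cast_div_le
      have h5 : (3 * ((q / d : ℕ) : ℝ)) ^ r ≤ (3 * ((q : ℝ) / d)) ^ r :=
        pow_le_pow_left₀ (by positivity) (by linarith) _
      refine h5.trans ?_
      have h6 : (3 * ((q : ℝ) / d)) ^ r = (3 * (q : ℝ)) ^ r * (1 / (d : ℝ)) ^ r := by
        rw [← mul_pow]; congr 1; ring
      rw [h6]
      refine mul_le_mul_of_nonneg_left ?_ (by positivity)
      have h7 : (1 / (d : ℝ)) ^ r ≤ (1 / (d : ℝ)) ^ 2 :=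
        pow_le_pow_of_le_one (by positivity) (by rw [div_le_one (by linarith)]; linarith) hr
      refine h7.trans ?_
      have h8 : (0 : ℝ) < d - 1 := by linarith
      have h9 : (0 : ℝ) < d := by linarith
      rw [div_pow, one_pow, div_sub_div _ _ h8.ne' h9.ne', div_le_div_iff₀ (by positivity)
        (by positivity)]
      nlinarith
  have e3 := e1.trans (Finset.sum_le_sum e2)
  rw [Finset.sum_add_distrib, ← Finset.sum_filter, ← Finset.sum_filter, Finset.sum_const,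
    nsmul_eq_mul, ← Finset.mul_sum] at e3
  have e4 : (((Finset.Icc 1 q).filter (fun d => d ≤ D)).card : ℝ) ≤ D := by
    have h4 : (Finset.Icc 1 q).filter (fun d => d ≤ D) ⊆ Finset.Icc 1 D := by
      intro d hd
      simp only [Finset.mem_filter, Finset.mem_Icc] at hd ⊢
      omega
    have h5 := Finset.card_le_card h4
    rw [Nat.card_Icc] at h5
    exact_mod_cast (by omega : ((Finset.Icc 1 q).filter (fun d => d ≤ D)).card ≤ D)
  have e5 : ∑ d ∈ (Finset.Icc 1 q).filter (fun d => D < d), (1 / ((d : ℝ) - 1) - 1 / d) ≤ 1 / D := by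
    rcases le_total D q with h | h
    · have h4 : (Finset.Icc 1 q).filter (fun d => D < d) = Finset.Ioc D q := by
        ext d
        simp only [Finset.mem_filter, Finset.mem_Icc, Finset.mem_Ioc]
        omega
      rw [h4, tele D hD1 q h]
      have : (0 : ℝ) < 1 / q := by positivity
      linarith
    · have h4 : (Finset.Icc 1 q).filter (fun d => D < d) = ∅ := by
        ext d
        simp only [Finset.mem_filter, Finset.mem_Icc, Finset.notMem_empty, iff_false]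
        omega
      rw [h4, Finset.sum_empty]
      positivity
  have e6 : (3 * (q : ℝ)) ^ r * (1 / D) ≤ c₀ / 2 * (q : ℝ) ^ r := by
    rw [mul_pow]
    have h4 : (3 : ℝ) ^ r * (1 / D) ≤ c₀ / 2 := by
      rw [div_le_iff₀ h0] at hD
      rw [mul_one_div, div_le_iff₀ hDr]
      linarith
    have h5 : (0 : ℝ) ≤ (q : ℝ) ^ r := by positivity
    nlinarith [mul_le_mul_of_nonneg_right h4 h5]
  have e7 := h3 q hq
  have e8 : (((Finset.Icc 1 q).filter (fun d => d ≤ D)).card : ℝ) * ((PP W q).ncard : ℝ) ≤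
      D * ((PP W q).ncard : ℝ) := mul_le_mul_of_nonneg_right e4 (Nat.cast_nonneg _)
  have e9 : (3 * (q : ℝ)) ^ r * ∑ d ∈ (Finset.Icc 1 q).filter (fun d => D < d),
      (1 / ((d : ℝ) - 1) - 1 / d) ≤ (3 * (q : ℝ)) ^ r * (1 / D) :=
    mul_le_mul_of_nonneg_left e5 (by positivity)
  have e10 : c₀ / 2 * (q : ℝ) ^ r ≤ D * ((PP W q).ncard : ℝ) := by linarith
  rw [div_mul_eq_mul_div, div_le_iff₀ (by positivity)]
  linarith

theorem t_QPR : S_QPR := by
  intro ι _ W c₀ hr h1 h2 h0 h3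
  exact t W c₀ hr h1 h2 h0 h3

end Pool.Agent.U591.WN.QPR
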